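import Mathlib
import Pool.Agent.Y485.UGS.Stm

set_option autoImplicit false

namespace Pool.Agent.Y417.UGS

open Pool.Agent.Y485.UGS
open scoped commutatorElement

variable {G : Type} [Group G]

/-- the additive subgroup generated by the values of the products of length `j` -/
def V (D G0 : Subgroup G) [D.Normal] (j : ℕ) : AddSubgroup (Additive (Abelianization D)) :=
  AddSubgroup.closure {w | ∃ (L : List G) (v : Additive (Abelianization D)),
    (∀ h ∈ L, h ∈ G0) ∧ L.length = j ∧ w = (L.map (fun h => cj D h - 1)).prod v}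

theorem V_step (D G0 : Subgroup G) [D.Normal] (j : ℕ) (h : G) (hh : h ∈ G0)
    (v : Additive (Abelianization D)) (hv : v ∈ V D G0 j) :
    (cj D h - 1 : AddMonoid.End _) v ∈ V D G0 (j + 1) := by
  have key : V D G0 j ≤ (V D G0 (j + 1)).comap (cj D h - 1 : AddMonoid.End _) := by
    refine (AddSubgroup.closure_le _).2 ?_
    rintro w ⟨L, u, hL, hlen, rfl⟩
    refine AddSubgroup.subset_closure ⟨h :: L, u, ?_, by simp [hlen], ?_⟩
    · intro g hg
      rcases List.mem_cons.1 hg with rfl | hg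
      · exact hh
      · exact hL g hg
    · rw [List.map_cons, List.prod_cons]; rfl
  exact key hv

/-- the elements of `D` whose class is in `V j` -/
def W (D G0 : Subgroup G) [D.Normal] (j : ℕ) : Subgroup G where
  carrier := {g | ∃ hg : g ∈ D, cl D ⟨g, hg⟩ ∈ V D G0 j}
  one_mem' := ⟨D.one_mem, by
    have : cl D ⟨1, D.one_mem⟩ = 0 := by
      show Additive.ofMul (Abelianization.of (1 : D)) = 0
      rw [map_one]; rfl
    rw [this]; exact (V D G0 j).zero_mem⟩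
  mul_mem' := by
    rintro a b ⟨ha, ha'⟩ ⟨hb, hb'⟩
    refine ⟨D.mul_mem ha hb, ?_⟩
    have : cl D ⟨a * b, D.mul_mem ha hb⟩ = cl D ⟨a, ha⟩ + cl D ⟨b, hb⟩ := by
      show Additive.ofMul (Abelianization.of ((⟨a, ha⟩ : D) * ⟨b, hb⟩)) = _
      rw [map_mul]; rfl
    rw [this]; exact (V D G0 j).add_mem ha' hb'
  inv_mem' := by
    rintro a ⟨ha, ha'⟩
    refine ⟨D.inv_mem ha, ?_⟩
    have : cl D ⟨a⁻¹, D.inv_mem ha⟩ = - cl D ⟨a, ha⟩ := by
      show Additive.ofMul (Abelianization.of ((⟨a, ha⟩ : D)⁻¹)) = _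
      rw [map_inv]; rfl
    rw [this]; exact (V D G0 j).neg_mem ha'

theorem cj_cl (D : Subgroup G) [hD : D.Normal] (h g : G) (hg : g ∈ D) :
    cj D h (cl D ⟨g, hg⟩) = cl D ⟨h * g * h⁻¹, hD.conj_mem g hg h⟩ := rfl

theorem W_comm (D G0 : Subgroup G) [hD : D.Normal] (j : ℕ) (M : Subgroup G) (hM : M ≤ W D G0 j) :
    ⁅M, G0⁆ ≤ W D G0 (j + 1) := by
  rw [Subgroup.commutator_le]
  intro g hg h hh
  obtain ⟨hgD, hgV⟩ := hM hg
  have hc : h * g * h⁻¹ ∈ D := hD.conj_mem g hgD h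
  have e1 : ⁅g, h⁆ = g * (h * g * h⁻¹)⁻¹ := by
    rw [commutatorElement_def]; group
  have hmem : ⁅g, h⁆ ∈ D := by
    rw [e1]; exact D.mul_mem hgD (D.inv_mem hc)
  refine ⟨hmem, ?_⟩
  have e2 : cl D ⟨⁅g, h⁆, hmem⟩ = - ((cj D h - 1 : AddMonoid.End _) (cl D ⟨g, hgD⟩)) := by
    have e3 : (⟨⁅g, h⁆, hmem⟩ : D) = ⟨g, hgD⟩ * (⟨h * g * h⁻¹, hc⟩ : D)⁻¹ := by
      apply Subtype.ext; exact e1
    rw [e3]
    show Additive.ofMul (Abelianization.of ((⟨g, hgD⟩ : D) * (⟨h * g * h⁻¹, hc⟩ : D)⁻¹)) = _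
    rw [map_mul, map_inv, ofMul_mul, ofMul_inv]
    show cl D ⟨g, hgD⟩ + - cl D ⟨h * g * h⁻¹, hc⟩ = _
    have e4 : (cj D h - 1 : AddMonoid.End _) (cl D ⟨g, hgD⟩)
        = cl D ⟨h * g * h⁻¹, hc⟩ - cl D ⟨g, hgD⟩ := rfl
    rw [e4]
    abel
  rw [e2]
  exact (V D G0 (j + 1)).neg_mem (V_step D G0 j h hh _ hgV)

theorem W_zero (D G0 M : Subgroup G) [D.Normal] (hM : M ≤ D) : M ≤ W D G0 0 := by
  intro g hg
  refine ⟨hM hg, AddSubgroup.subset_closure ⟨[], cl D ⟨g, hM hg⟩, by simp, rfl, by simp⟩⟩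

theorem W_end (D G0 : Subgroup G) [D.Normal] (r : ℕ)
    (h0 : ∀ L : List G, (∀ h ∈ L, h ∈ G0) → L.length = r →
      (L.map (fun h => cj D h - 1)).prod = 0) : W D G0 r ≤ ⁅D, D⁆ := by
  rintro g ⟨hg, hv⟩
  have hV : V D G0 r = ⊥ := by
    rw [eq_bot_iff]
    refine (AddSubgroup.closure_le _).2 ?_
    rintro w ⟨L, v, hL, hlen, rfl⟩
    rw [h0 L hL hlen]
    simp
  rw [hV, AddSubgroup.mem_bot] at hv
  have h1 : Abelianization.of (⟨g, hg⟩ : D) = 1 := hv
  have h2 : (⟨g, hg⟩ : D) ∈ commutator D := by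
    rw [← Abelianization.ker_of]
    exact h1
  have h3 : g ∈ (commutator D).map D.subtype := ⟨⟨g, hg⟩, h2, rfl⟩
  rwa [Subgroup.map_subtype_commutator] at h3

/-- the lower central series of `G0`, as subgroups of `G` -/
abbrev M (G0 : Subgroup G) (j : ℕ) : Subgroup G := G0.lowerCentralSeries j

theorem M_add (D G0 : Subgroup G) [D.Normal] (k : ℕ) (hk : M G0 k ≤ D) (j : ℕ) :
    M G0 (k + j) ≤ W D G0 j := by
  induction j with
  | zero => exact W_zero D G0 _ hk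
  | succ j ih => exact W_comm D G0 j _ ih

theorem fin : S_FIN := by
  intro G _ l hl hyp
  have hyp' : ∀ i : Fin l, ∃ (H0 : Subgroup G) (r : ℕ), H0.index ≠ 0 ∧
      ∀ L : List G, (∀ h ∈ L, h ∈ H0) → L.length = r →
        (L.map (fun h => cj (derivedSeries G i) h - 1)).prod = 0 := by
    intro i
    obtain ⟨H0, r, _, h2, h3⟩ := hyp i i.2
    refine ⟨H0, r, ?_, h3⟩
    rwa [Subgroup.relIndex_top_right] at h2
  choose F r hF hr using hyp'
  set G0 : Subgroup G := ⨅ i, F i with hG0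
  have hfin : G0.index ≠ 0 := by
    have h1 : G0.FiniteIndex := by
      haveI : ∀ i, (F i).FiniteIndex := fun i => ⟨hF i⟩
      exact Subgroup.finiteIndex_iInf (fun i => this i)
    exact h1.index_ne_zero
  have hstep : ∀ i ≤ l, ∃ k, M G0 k ≤ derivedSeries G i := by
    intro i
    induction i with
    | zero => intro _; exact ⟨0, by simp [derivedSeries_zero]⟩
    | succ i ih =>
      intro hi
      obtain ⟨k, hk⟩ := ih (by omega)
      refine ⟨k + r ⟨i, hi⟩, (M_add (derivedSeries G i) G0 k hk (r ⟨i, hi⟩)).trans ?_⟩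
      rw [derivedSeries_succ]
      refine W_end (derivedSeries G i) G0 _ ?_
      intro L hL hlen
      refine hr ⟨i, hi⟩ L (fun h hh => ?_) hlen
      exact (iInf_le F ⟨i, hi⟩) (hL h hh)
  obtain ⟨k, hk⟩ := hstep l le_rfl
  refine ⟨G0, hfin, ?_⟩
  rw [Subgroup.isNilpotent_iff_lowerCentralSeries]
  refine ⟨k, ?_⟩
  rwa [hl, le_bot_iff] at hk

end Pool.Agent.Y417.UGS
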